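import Pool.Agent.H964R2.Lang.Main

/-!
# Rational points on projective schemes over `E^r`: the complete version (points with some
coordinates equal to `O` included)
-/

namespace Pool.Agent.H964R2.Lang

open MvPolynomial

/-- **Key lemma in weighted homogeneous coordinates**, points at infinity included -/
theorem key_coords' {r : ℕ} (a b z : Fin r → ℚ) (hE : ∀ i, b i ^ 2 = a i ^ 3 - 23 * a i * z i ^ 4)
    (h0 : ∀ i, ¬ (a i = 0 ∧ b i = 0 ∧ z i = 0)) (hne : ∃ i, ¬ (a i = 0 ∧ b i = 0)) :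
    ∃ (p : ℕ), Inert p ∧ ∃ (A B Z : Fin r → ℤ) (t : Fin r → ℚ) (e : Fin r → Bool),
      (∃ i, e i = false) ∧
      ∀ i, t i ≠ 0 ∧ a i = t i ^ 2 * A i ∧ b i = t i ^ 3 * B i ∧ z i = t i * Z i ∧
        (e i = false → (p : ℤ) ∣ Z i ∧ ¬ (p : ℤ) ∣ A i ∧ (p : ℤ) ∣ B i ^ 2 - A i ^ 3) ∧
        (e i = true → (p : ℤ) ∣ A i ∧ (p : ℤ) ∣ B i ∧ ¬ (p : ℤ) ∣ Z i) := by
  classical
  -- the points
  have h1 : ∀ i, ∃ P : Pt, (z i = 0 → P = 0) ∧
      (z i ≠ 0 → P ≠ 0 ∧ ptX P = a i / z i ^ 2 ∧ ptY P = b i / z i ^ 3) := by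
    intro i
    by_cases hz : z i = 0
    · exact ⟨0, fun _ => rfl, fun h => absurd hz h⟩
    · have h2 : (b i / z i ^ 3) ^ 2 = (a i / z i ^ 2) ^ 3 - 23 * (a i / z i ^ 2) := by
        have := hE i
        field_simp
        linarith
      obtain ⟨P, hP0, hPX, hPY⟩ := exists_pt h2
      exact ⟨P, fun h => absurd h hz, fun _ => ⟨hP0, hPX, hPY⟩⟩
  choose P hP0 hP1 using h1
  obtain ⟨p, hp, hall, i0, hi0⟩ := key P (by
    obtain ⟨i, hi⟩ := hne
    refine ⟨i, fun h => hi ?_⟩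
    by_cases hz : z i = 0
    · have h2 := hP0 i hz
      rw [h] at h2
      exact absurd h2 T_ne
    · obtain ⟨-, h3, h4⟩ := hP1 i hz
      rw [h, T_X] at h3
      have h5 : a i = 0 := by
        field_simp at h3
        linarith
      have h6 := hE i
      rw [h5] at h6
      have h7 : b i ^ 2 = 0 := by rw [h6]; ring
      exact ⟨h5, pow_eq_zero_iff two_ne_zero |>.1 h7⟩)
  have hpF : Fact p.Prime := ⟨hp.1⟩
  have h2 : ∀ i, ∃ (A B Z : ℤ) (t : ℚ), t ≠ 0 ∧ a i = t ^ 2 * A ∧ b i = t ^ 3 * B ∧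
      z i = t * Z ∧
        (P i ∈ Ker p → (p : ℤ) ∣ Z ∧ ¬ (p : ℤ) ∣ A ∧ (p : ℤ) ∣ B ^ 2 - A ^ 3) ∧
        (P i ∉ Ker p → (p : ℤ) ∣ A ∧ (p : ℤ) ∣ B ∧ ¬ (p : ℤ) ∣ Z) := by
    intro i
    by_cases hz : z i = 0
    · have h3 : b i ^ 2 = a i ^ 3 := by rw [hE i, hz]; ring
      have ha : a i ≠ 0 := by
        intro ha
        rw [ha] at h3
        have h4 : b i ^ 2 = 0 := by rw [h3]; ring
        exact h0 i ⟨ha, pow_eq_zero_iff two_ne_zero |>.1 h4, hz⟩
      have hb : b i ≠ 0 := by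
        intro hb
        rw [hb] at h3
        have h4 : a i ^ 3 = 0 := by rw [← h3]; ring
        exact ha (pow_eq_zero_iff (by norm_num) |>.1 h4)
      refine ⟨1, 1, 0, b i / a i, div_ne_zero hb ha, ?_, ?_, by rw [hz]; simp, ?_, ?_⟩
      · rw [div_pow, h3]; field_simp; simp
      · rw [div_pow, ← h3]; field_simp; simp
      · intro _
        refine ⟨dvd_zero _, ?_, by norm_num⟩
        intro h4
        exact hp.1.one_lt.ne' (Nat.dvd_one.1 (by exact_mod_cast h4))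
      · intro h4
        exact absurd (by rw [hP0 i hz]; exact (Ker p).zero_mem) h4
    · obtain ⟨hPi, hPX, hPY⟩ := hP1 i hz
      obtain ⟨A, B, Z, hZ, hX, hY, hEq, hco⟩ := coords hPi
      have hZ' : (Z : ℚ) ≠ 0 := by exact_mod_cast hZ
      refine ⟨A, B, Z, z i / Z, div_ne_zero hz hZ', ?_, ?_, by field_simp, ?_, ?_⟩
      · have h3 : a i / z i ^ 2 = A / Z ^ 2 := by rw [← hPX, hX]
        rw [div_pow]
        field_simp at h3 ⊢
        linarith
      · have h3 : b i / z i ^ 3 = B / Z ^ 3 := by rw [← hPY, hY]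
        rw [div_pow]
        field_simp at h3 ⊢
        linarith
      · intro h4
        have h5 := red_O hPi h4 hZ hX
        refine ⟨h5, fun h6 => inot_both hco hp.1 h6 h5, ?_⟩
        rw [hEq]
        have : A ^ 3 - 23 * A * Z ^ 4 - A ^ 3 = Z * (-(23 * A * Z ^ 3)) := by ring
        rw [this]
        exact h5.mul_right _
      · intro h4
        have h5 : P i + T ∈ Ker p := (hall i).resolve_left h4
        obtain ⟨h6, h7⟩ := red_T hp.2.1 hPi h5 hZ hX hEq
        exact ⟨h6, h7, fun h8 => inot_both hco hp.1 h6 h8⟩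
  choose A B Z t h3 using h2
  refine ⟨p, hp, A, B, Z, t, fun i => if P i ∈ Ker p then false else true, ⟨i0, if_pos hi0⟩, ?_⟩
  intro i
  obtain ⟨g1, g2, g3, g4, g5, g6⟩ := h3 i
  refine ⟨g1, g2, g3, g4, fun h => g5 ?_, fun h => g6 ?_⟩
  · by_contra hcon
    simp [hcon] at h
  · intro hcon
    simp [hcon] at h

/-- The complete version of `general`: `(a_i, b_i, z_i)` are weighted homogeneous coordinates of
the `i`-th point, `O` included; `z` are the fibre coordinates. -/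
theorem general' {r k : ℕ} (ν : Fin k → Fin r → ℕ) {J : Type}
    (H : J → MvPolynomial ((Fin r × Fin 3) ⊕ Fin k) ℤ)
    (d : J → (Fin r → ℕ) × ℕ) (hH : ∀ j, IsWeightedHomogeneous (wt ν) (H j) (d j))
    (hfib : ∀ p : ℕ, Inert p → ∀ e : Fin r → Bool, (∃ i, e i = false) → ∀ ζ : Fin k → ZMod p,
      (∀ j, aeval (Sum.elim (fun q => corner (ZMod p) (e q.1) q.2) ζ) (H j) = 0) → ζ = 0)
    (a b z : Fin r → ℚ) (hE : ∀ i, b i ^ 2 = a i ^ 3 - 23 * a i * z i ^ 4)
    (h0 : ∀ i, ¬ (a i = 0 ∧ b i = 0 ∧ z i = 0)) (f : Fin k → ℚ) (hf : f ≠ 0)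
    (hX : ∀ j, aeval (Sum.elim (fun q => ![a q.1, b q.1, z q.1] q.2) f) (H j) = 0) :
    ∀ i, a i = 0 ∧ b i = 0 := by
  classical
  by_contra hcon
  have hne : ∃ i, ¬ (a i = 0 ∧ b i = 0) := by
    by_contra h
    push Not at h
    exact hcon fun i => h i
  obtain ⟨p, hp, A, B, Z, tQ, e, he, hall⟩ := key_coords' a b z hE h0 hne
  have hpF : Fact p.Prime := ⟨hp.1⟩
  -- scaling of the fibre coordinates
  have htQ0 : ∀ i, tQ i ≠ 0 := fun i => (hall i).1
  set f' : Fin k → ℚ := fun l => (∏ i, tQ i ^ ν l i)⁻¹ * f l with hf'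
  have hprodQ : ∀ l, (∏ i, tQ i ^ ν l i) ≠ 0 := fun l =>
    Finset.prod_ne_zero_iff.2 fun i _ => pow_ne_zero _ (htQ0 i)
  have hf'0 : f' ≠ 0 := by
    obtain ⟨l, hl⟩ := Function.ne_iff.1 hf
    refine Function.ne_iff.2 ⟨l, ?_⟩
    rw [hf']
    exact mul_ne_zero (inv_ne_zero (hprodQ l)) hl
  obtain ⟨lam, ζ, hlam, hζ, l0, hl0⟩ := exists_primitive hp.1 hf'0
  -- the integral point
  set v : (Fin r × Fin 3) ⊕ Fin k → ℤ := Sum.elim (fun q => ![A q.1, B q.1, Z q.1] q.2) ζ with hv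
  have hvQ : (Sum.elim (fun q => ![a q.1, b q.1, z q.1] q.2) f : (Fin r × Fin 3) ⊕ Fin k → ℚ) =
      fun s => chi tQ lam⁻¹ (wt ν s) * ((v s : ℤ) : ℚ) := by
    funext s
    rcases s with ⟨i, j⟩ | l
    · have h0 := hall i
      change ![a i, b i, z i] j =
        chi tQ lam⁻¹ (Pi.single i (![2, 3, 1] j), 0) * ((![A i, B i, Z i] j : ℤ) : ℚ)
      rw [chi_single]
      fin_cases j
      · exact h0.2.1
      · exact h0.2.2.1
      · change z i = tQ i ^ 1 * (Z i : ℚ)
        rw [pow_one]; exact h0.2.2.2.1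
    · change f l = chi tQ lam⁻¹ (ν l, 1) * ζ l
      rw [hζ l, hf', chi]
      have := hprodQ l
      simp only [pow_one]
      field_simp
  have hv0 : ∀ j, aeval v (H j) = (0 : ℤ) := by
    intro j
    have h1 : ((aeval v (H j) : ℤ) : ℚ) = aeval (fun s => ((v s : ℤ) : ℚ)) (H j) := by
      have := MvPolynomial.map_aeval v (Int.castRingHom ℚ) (H j)
      rw [eq_intCast] at this
      rw [this, aeval_def]
      congr 1
    have h2 := hX j
    rw [hvQ, aeval_scale tQ lam⁻¹ (hH j)] at h2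
    have h3 : chi tQ lam⁻¹ (d j) ≠ 0 := by
      rw [chi]
      exact mul_ne_zero (Finset.prod_ne_zero_iff.2 fun i _ => pow_ne_zero _ (htQ0 i))
        (pow_ne_zero _ (inv_ne_zero hlam))
    have h4 := (mul_eq_zero.1 h2).resolve_left h3
    rw [← h1] at h4
    exact_mod_cast h4
  -- reduction modulo `p`
  have hvp : ∀ j, aeval (fun s => ((v s : ℤ) : ZMod p)) (H j) = (0 : ZMod p) := by
    intro j
    have := MvPolynomial.map_aeval v (Int.castRingHom (ZMod p)) (H j)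
    rw [eq_intCast, hv0 j] at this
    rw [aeval_def]
    push_cast at this
    rw [this]
    congr 1
  set t : Fin r → ZMod p := fun i => if e i = false then (B i : ZMod p) / (A i : ZMod p) else (Z i : ZMod p) with ht
  have hfacts : ∀ i, t i ≠ 0 ∧ ∀ j, ((![A i, B i, Z i] j : ℤ) : ZMod p) =
      t i ^ (![2, 3, 1] j : ℕ) * corner (ZMod p) (e i) j := by
    intro i
    obtain ⟨-, -, -, -, hO, hT⟩ := hall i
    rcases hei : e i with _ | _
    · obtain ⟨h1, h2, h3⟩ := hO hei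
      have hZp : (Z i : ZMod p) = 0 := (ZMod.intCast_zmod_eq_zero_iff_dvd _ p).2 h1
      have hAp : (A i : ZMod p) ≠ 0 := fun h => h2 ((ZMod.intCast_zmod_eq_zero_iff_dvd _ p).1 h)
      have hBA : (B i : ZMod p) ^ 2 = (A i : ZMod p) ^ 3 := by
        have := (ZMod.intCast_zmod_eq_zero_iff_dvd _ p).2 h3
        push_cast at this
        exact sub_eq_zero.1 this
      have hBp : (B i : ZMod p) ≠ 0 := by
        intro h
        rw [h] at hBA
        have : (A i : ZMod p) ^ 3 = 0 := by rw [← hBA]; ring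
        exact hAp (pow_eq_zero_iff (by norm_num) |>.1 this)
      have hti : t i = (B i : ZMod p) / (A i : ZMod p) := by
        rw [ht]; simp only [hei, if_true]
      refine ⟨by rw [hti]; exact div_ne_zero hBp hAp, ?_⟩
      intro j
      rw [hti]
      fin_cases j
      · change ((A i : ℤ) : ZMod p) = ((B i : ZMod p) / (A i : ZMod p)) ^ 2 * 1
        rw [div_pow, hBA]; field_simp
      · change ((B i : ℤ) : ZMod p) = ((B i : ZMod p) / (A i : ZMod p)) ^ 3 * 1
        rw [div_pow, ← hBA]; field_simp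
      · change ((Z i : ℤ) : ZMod p) = ((B i : ZMod p) / (A i : ZMod p)) ^ 1 * 0
        rw [hZp]; ring
    · obtain ⟨h1, h2, h3⟩ := hT hei
      have hZp : (Z i : ZMod p) ≠ 0 := fun h => h3 ((ZMod.intCast_zmod_eq_zero_iff_dvd _ p).1 h)
      have hAp : (A i : ZMod p) = 0 := (ZMod.intCast_zmod_eq_zero_iff_dvd _ p).2 h1
      have hBp : (B i : ZMod p) = 0 := (ZMod.intCast_zmod_eq_zero_iff_dvd _ p).2 h2
      have hti : t i = (Z i : ZMod p) := by
        rw [ht]; simp [hei]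
      refine ⟨by rw [hti]; exact hZp, ?_⟩
      intro j
      rw [hti]
      fin_cases j
      · change ((A i : ℤ) : ZMod p) = (Z i : ZMod p) ^ 2 * 0
        rw [hAp]; ring
      · change ((B i : ℤ) : ZMod p) = (Z i : ZMod p) ^ 3 * 0
        rw [hBp]; ring
      · change ((Z i : ℤ) : ZMod p) = (Z i : ZMod p) ^ 1 * 1
        ring
  set c : Fin k → ZMod p := fun l => (∏ i, t i ^ ν l i)⁻¹ * (ζ l : ZMod p) with hc
  have hprod : ∀ l, (∏ i, t i ^ ν l i) ≠ 0 := fun l =>
    Finset.prod_ne_zero_iff.2 fun i _ => pow_ne_zero _ (hfacts i).1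
  have hvs : (fun s => ((v s : ℤ) : ZMod p)) =
      fun s => chi t 1 (wt ν s) * (Sum.elim (fun q => corner (ZMod p) (e q.1) q.2) c) s := by
    funext s
    rcases s with ⟨i, j⟩ | l
    · change ((![A i, B i, Z i] j : ℤ) : ZMod p) =
        chi t 1 (Pi.single i (![2, 3, 1] j), 0) * corner (ZMod p) (e i) j
      rw [chi_single]
      exact (hfacts i).2 j
    · change ((ζ l : ℤ) : ZMod p) = chi t 1 (ν l, 1) * c l
      rw [hc, chi]
      simp only [one_pow, mul_one]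
      rw [mul_inv_cancel_left₀ (hprod l)]
  have hc0 : c = 0 := by
    apply hfib p hp e he c
    intro j
    have h1 := hvp j
    rw [hvs, aeval_scale t 1 (hH j)] at h1
    refine (mul_eq_zero.1 h1).resolve_left ?_
    rw [chi, one_pow, mul_one]
    exact Finset.prod_ne_zero_iff.2 fun i _ => pow_ne_zero _ (hfacts i).1
  apply hl0
  rw [← ZMod.intCast_zmod_eq_zero_iff_dvd]
  have h1 := congrFun hc0 l0
  rw [hc] at h1
  exact (mul_eq_zero.1 h1).resolve_left (inv_ne_zero (hprod l0))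

end Pool.Agent.H964R2.Lang
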