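import Pool.Agent.H964R2.Kob.Complete
import Pool.Agent.H964R2.Lang.Cover

/-!
# Covers of `E^r` of degree `d`
-/

namespace Pool.Agent.H964R2.Kob

open MvPolynomial Pool.Agent.H964R2.Lang

/-- Index set of a basis of the functions on `E` with a pole of order `≤ 2n` at `O` and no other
pole: `inl a` stands for `x^a` (`a ≤ n`), `inr b` for `x^b y` (`b ≤ n - 2`). -/
abbrev Mon (n : ℕ) : Type := Fin (n + 1) ⊕ Fin (n - 1)

/-- the function `x^a` or `x^b y`, as a form of weighted degree `2n` in the coordinates `A, B, Z`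
of weights `2, 3, 1` -/
def mon {n : ℕ} : Mon n → ℚ → ℚ → ℚ → ℚ
  | .inl a, A, _, Z => A ^ (a : ℕ) * Z ^ (2 * n - 2 * (a : ℕ))
  | .inr b, A, B, Z => A ^ (b : ℕ) * B * Z ^ (2 * n - 2 * (b : ℕ) - 3)

/-- the section of `O(2n ∑ {P_j = O})` on `E^r` with coefficients `c` -/
def sec {r n : ℕ} (c : (Fin r → Mon n) → ℚ) (A B Z : Fin r → ℚ) : ℚ :=
  ∑ s : Fin r → Mon n, c s * ∏ j, mon (s j) (A j) (B j) (Z j)

/-- Index set of the coefficients of a cover of degree `d`: the coefficient of `w^i` is a section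
of `O(2m (d - i) ∑ {P_j = O})`. -/
abbrev Coef (r m d : ℕ) : Type := (i : Fin d) × (Fin r → Mon (m * (d - i)))

/-- the equation `w^d + ∑_{i < d} a_i w^i` -/
def cov {r m d : ℕ} (c : Coef r m d → ℚ) (A B Z : Fin r → ℚ) (w : ℚ) : ℚ :=
  w ^ d + ∑ i : Fin d, sec (fun s => c ⟨i, s⟩) A B Z * w ^ (i : ℕ)

/-- the index of the leading coefficient at the point of `{O, T}^r` given by `e`
(`false` for `O`, `true` for `T`): `x_j^n` if the `j`-th point is `O`, `1` if it is `T` -/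
def idx {r n : ℕ} (e : Fin r → Bool) : Fin r → Mon n :=
  fun j => .inl (if e j then 0 else Fin.last n)

/-- homogenised monomials -/
noncomputable def hmon {r n : ℕ} (j : Fin r) : Mon n → MvPolynomial ((Fin r × Fin 3) ⊕ Fin 2) ℤ
  | .inl a => X (.inl (j, 0)) ^ (a : ℕ) * X (.inl (j, 2)) ^ (2 * n - 2 * (a : ℕ))
  | .inr b => X (.inl (j, 0)) ^ (b : ℕ) * X (.inl (j, 1)) *
      X (.inl (j, 2)) ^ (2 * n - 2 * (b : ℕ) - 3)

/-- the weights of the two fibre coordinates `u, w` -/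
def nu (r m : ℕ) : Fin 2 → Fin r → ℕ := ![fun _ => 0, fun _ => 2 * m]

noncomputable def hsec {r n : ℕ} (c : (Fin r → Mon n) → ℤ) :
    MvPolynomial ((Fin r × Fin 3) ⊕ Fin 2) ℤ :=
  ∑ s : Fin r → Mon n, C (c s) * ∏ j, hmon j (s j)

/-- the equation `D w^d + ∑_{i < d} a_i w^i u^(d-i)` -/
noncomputable def eqn {r m d : ℕ} (D : ℤ) (c : Coef r m d → ℤ) :
    MvPolynomial ((Fin r × Fin 3) ⊕ Fin 2) ℤ :=
  C D * X (.inr 1) ^ d + ∑ i : Fin d, hsec (fun s => c ⟨i, s⟩) *
    (X (.inr 1) ^ (i : ℕ) * X (.inr 0) ^ (d - (i : ℕ)))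

theorem hmon_hom {r m n : ℕ} (j : Fin r) (s : Mon n) :
    IsWeightedHomogeneous (wt (nu r m)) (hmon j s) (Pi.single j (2 * n), 0) := by
  rcases s with a | b
  · have h0 := isWeightedHomogeneous_X ℤ (wt (nu r m)) (.inl (j, 0))
    have h2 := isWeightedHomogeneous_X ℤ (wt (nu r m)) (.inl (j, 2))
    have h := (h0.pow (a : ℕ)).mul (h2.pow (2 * n - 2 * (a : ℕ)))
    have e : (a : ℕ) • wt (nu r m) (.inl (j, 0)) + (2 * n - 2 * (a : ℕ)) • wt (nu r m) (.inl (j, 2)) =
        (Pi.single j (2 * n), 0) := by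
      change (a : ℕ) • ((Pi.single j 2 : Fin r → ℕ), (0 : ℕ)) +
        (2 * n - 2 * (a : ℕ)) • ((Pi.single j 1 : Fin r → ℕ), (0 : ℕ)) = _
      rw [single_smul, single_smul, single_add]
      have := a.2
      congr 2
      omega
    rw [e] at h
    exact h
  · have h0 := isWeightedHomogeneous_X ℤ (wt (nu r m)) (.inl (j, 0))
    have h1 := isWeightedHomogeneous_X ℤ (wt (nu r m)) (.inl (j, 1))
    have h2 := isWeightedHomogeneous_X ℤ (wt (nu r m)) (.inl (j, 2))
    have h := ((h0.pow (b : ℕ)).mul h1).mul (h2.pow (2 * n - 2 * (b : ℕ) - 3))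
    have e : (b : ℕ) • wt (nu r m) (.inl (j, 0)) + wt (nu r m) (.inl (j, 1)) +
        (2 * n - 2 * (b : ℕ) - 3) • wt (nu r m) (.inl (j, 2)) = (Pi.single j (2 * n), 0) := by
      change (b : ℕ) • ((Pi.single j 2 : Fin r → ℕ), (0 : ℕ)) + ((Pi.single j 3 : Fin r → ℕ), (0 : ℕ)) +
        (2 * n - 2 * (b : ℕ) - 3) • ((Pi.single j 1 : Fin r → ℕ), (0 : ℕ)) = _
      rw [single_smul, single_smul, single_add, single_add]
      have := b.2
      congr 2
      omega
    rw [e] at h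
    exact h

theorem hsec_hom {r m n : ℕ} (c : (Fin r → Mon n) → ℤ) :
    IsWeightedHomogeneous (wt (nu r m)) (hsec c) (fun _ => 2 * n, 0) := by
  unfold hsec
  apply IsWeightedHomogeneous.sum
  intro s _
  apply IsWeightedHomogeneous.C_mul
  rw [← sum_single]
  exact IsWeightedHomogeneous.prod _ _ _ fun i _ => hmon_hom i (s i)

theorem fun_smul {r : ℕ} (k a b : ℕ) :
    k • ((fun _ => a : Fin r → ℕ), b) = (fun _ => k * a, k * b) := by
  ext j <;> simp

theorem fun_add {r : ℕ} (a b a' b' : ℕ) :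
    ((fun _ => a : Fin r → ℕ), b) + (fun _ => a', b') = (fun _ => a + a', b + b') := by
  ext j <;> simp

theorem eqn_hom {r m d : ℕ} (D : ℤ) (c : Coef r m d → ℤ) :
    IsWeightedHomogeneous (wt (nu r m)) (eqn D c) (fun _ => 2 * m * d, d) := by
  have hu := isWeightedHomogeneous_X ℤ (wt (nu r m)) (.inr 0)
  have hw := isWeightedHomogeneous_X ℤ (wt (nu r m)) (.inr 1)
  have eu : wt (nu r m) (.inr 0) = (fun _ => 0, 1) := rfl
  have ew : wt (nu r m) (.inr 1) = (fun _ => 2 * m, 1) := rfl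
  rw [eu] at hu
  rw [ew] at hw
  unfold eqn
  apply IsWeightedHomogeneous.add
  · have h := (hw.pow d).C_mul D
    rw [fun_smul, mul_one, mul_comm d (2 * m)] at h
    exact h
  · apply IsWeightedHomogeneous.sum
    intro i _
    have h := (hsec_hom (m := m) fun s => c ⟨i, s⟩).mul ((hw.pow (i : ℕ)).mul (hu.pow (d - (i : ℕ))))
    rw [fun_smul, fun_smul, fun_add, fun_add] at h
    have hi := i.2
    have e1 : 2 * (m * (d - (i : ℕ))) + ((i : ℕ) * (2 * m) + (d - (i : ℕ)) * 0) = 2 * m * d := by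
      obtain ⟨k, hk⟩ : ∃ k, d = i + k := ⟨d - i, by omega⟩
      have : d - (i : ℕ) = k := by omega
      have h9 : 2 * m * d = 2 * m * ((i : ℕ) + k) := congrArg (fun x => 2 * m * x) hk
      rw [this, h9]
      ring
    have e2 : 0 + ((i : ℕ) * 1 + (d - (i : ℕ)) * 1) = d := by omega
    rw [e1, e2] at h
    exact h

theorem hmon_eval {r n : ℕ} (A B Z : Fin r → ℚ) (z : Fin 2 → ℚ) (j : Fin r) (s : Mon n) :
    aeval (Sum.elim (fun q : Fin r × Fin 3 => ![A q.1, B q.1, Z q.1] q.2) z) (hmon j s) =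
      mon s (A j) (B j) (Z j) := by
  rcases s with a | b
  · simp [hmon, mon]
  · simp [hmon, mon]

theorem hmon_corner {R : Type*} [CommRing R] {r n : ℕ} (e : Fin r → Bool) (z : Fin 2 → R) (j : Fin r)
    (s : Mon n) :
    aeval (Sum.elim (fun q : Fin r × Fin 3 => corner R (e q.1) q.2) z) (hmon j s) =
      if s = idx e j then 1 else 0 := by
  rcases s with a | b
  · rcases he : e j with _ | _
    · have e1 : (Sum.inl a : Mon n) = idx e j ↔ (a : ℕ) = n := by
        simp only [idx, he, Sum.inl.injEq, Bool.false_eq_true, if_false]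
        rw [Fin.ext_iff]; rfl
      have e2 : aeval (Sum.elim (fun q : Fin r × Fin 3 => corner R (e q.1) q.2) z)
          (hmon j (Sum.inl a : Mon n)) = (1 : R) ^ (a : ℕ) * (0 : R) ^ (2 * n - 2 * (a : ℕ)) := by
        simp only [hmon, map_mul, map_pow, aeval_X, Sum.elim_inl, he]
        rfl
      rw [e2, one_pow, one_mul]
      by_cases h : (a : ℕ) = n
      · rw [if_pos (e1.2 h), h]
        have : 2 * n - 2 * n = 0 := by omega
        rw [this, pow_zero]
      · rw [if_neg (fun h' => h (e1.1 h')), zero_pow]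
        have := a.2
        omega
    · have e1 : (Sum.inl a : Mon n) = idx e j ↔ (a : ℕ) = 0 := by
        simp only [idx, he, Sum.inl.injEq, if_true]
        rw [Fin.ext_iff]; rfl
      have e2 : aeval (Sum.elim (fun q : Fin r × Fin 3 => corner R (e q.1) q.2) z)
          (hmon j (Sum.inl a : Mon n)) = (0 : R) ^ (a : ℕ) * (1 : R) ^ (2 * n - 2 * (a : ℕ)) := by
        simp only [hmon, map_mul, map_pow, aeval_X, Sum.elim_inl, he]
        rfl
      rw [e2, one_pow, mul_one]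
      by_cases h : (a : ℕ) = 0
      · rw [if_pos (e1.2 h), h, pow_zero]
      · rw [if_neg (fun h' => h (e1.1 h')), zero_pow h]
  · have e1 : (Sum.inr b : Mon n) ≠ idx e j := by simp [idx]
    rw [if_neg e1]
    rcases he : e j with _ | _
    · have e2 : aeval (Sum.elim (fun q : Fin r × Fin 3 => corner R (e q.1) q.2) z)
          (hmon j (Sum.inr b : Mon n)) = (1 : R) ^ (b : ℕ) * 1 * (0 : R) ^ (2 * n - 2 * (b : ℕ) - 3) := by
        simp only [hmon, map_mul, map_pow, aeval_X, Sum.elim_inl, he]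
        rfl
      rw [e2, zero_pow, mul_zero]
      have := b.2
      omega
    · have e2 : aeval (Sum.elim (fun q : Fin r × Fin 3 => corner R (e q.1) q.2) z)
          (hmon j (Sum.inr b : Mon n)) = (0 : R) ^ (b : ℕ) * 0 * (1 : R) ^ (2 * n - 2 * (b : ℕ) - 3) := by
        simp only [hmon, map_mul, map_pow, aeval_X, Sum.elim_inl, he]
        rfl
      rw [e2]; ring

theorem hsec_eval {r n : ℕ} (c : (Fin r → Mon n) → ℤ) (A B Z : Fin r → ℚ) (z : Fin 2 → ℚ) :
    aeval (Sum.elim (fun q : Fin r × Fin 3 => ![A q.1, B q.1, Z q.1] q.2) z) (hsec c) =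
      sec (fun s => (c s : ℚ)) A B Z := by
  simp only [hsec, sec, map_mul, map_sum, map_prod, hmon_eval, aeval_C]
  rfl

theorem eqn_eval {r m d : ℕ} (D : ℤ) (c : Coef r m d → ℤ) (A B Z : Fin r → ℚ) (z : Fin 2 → ℚ) :
    aeval (Sum.elim (fun q : Fin r × Fin 3 => ![A q.1, B q.1, Z q.1] q.2) z) (eqn D c) =
      D * z 1 ^ d + ∑ i : Fin d, sec (fun s => (c ⟨i, s⟩ : ℚ)) A B Z *
        (z 1 ^ (i : ℕ) * z 0 ^ (d - (i : ℕ))) := by
  simp only [eqn, map_add, map_mul, map_pow, aeval_X, Sum.elim_inr, map_sum, hsec_eval, aeval_C]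
  rfl

theorem hsec_corner {R : Type*} [CommRing R] {r n : ℕ} (c : (Fin r → Mon n) → ℤ) (e : Fin r → Bool)
    (z : Fin 2 → R) :
    aeval (Sum.elim (fun q : Fin r × Fin 3 => corner R (e q.1) q.2) z) (hsec c) =
      (c (idx e) : R) := by
  classical
  have h : ∑ s : Fin r → Mon n, ((algebraMap ℤ R) (c s)) * ∏ j, (if s j = idx e j then (1 : R) else 0) =
      (c (idx e) : R) := by
    rw [Finset.sum_eq_single (idx e)]
    · simp
    · intro s _ hs
      obtain ⟨i, hi⟩ := Function.ne_iff.1 hs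
      rw [Finset.prod_eq_zero (Finset.mem_univ i) (if_neg hi), mul_zero]
    · intro h; exact absurd (Finset.mem_univ _) h
  simp only [hsec, map_mul, map_sum, map_prod, hmon_corner, aeval_C]
  rw [h]

theorem eqn_corner {R : Type*} [CommRing R] {r m d : ℕ} (D : ℤ) (c : Coef r m d → ℤ)
    (e : Fin r → Bool) (z : Fin 2 → R) :
    aeval (Sum.elim (fun q : Fin r × Fin 3 => corner R (e q.1) q.2) z) (eqn D c) =
      D * z 1 ^ d + ∑ i : Fin d, (c ⟨i, idx e⟩ : R) * (z 1 ^ (i : ℕ) * z 0 ^ (d - (i : ℕ))) := by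
  simp only [eqn, map_add, map_mul, map_pow, aeval_X, Sum.elim_inr, map_sum, hsec_corner, aeval_C]
  rfl

/-- free of inert prime factors -/
def NI (n : ℤ) : Prop := ∀ p : ℕ, Inert p → ¬ (p : ℤ) ∣ n

/-- **Covers, integral coefficients**: if, for every corner `e ≠ (T, …, T)` and every inert prime
`p`, the fibre over `e` has no `𝔽_p`-point, then all rational points lie over `(T, …, T)`. -/
theorem cover {r m d : ℕ} (D : ℤ) (hD : NI D) (hd : 0 < d) (c : Coef r m d → ℤ)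
    (hc : ∀ e : Fin r → Bool, (∃ i, e i = false) → ∀ p : ℕ, Inert p → ∀ w : ZMod p,
      D * w ^ d + ∑ i : Fin d, (c ⟨i, idx e⟩ : ZMod p) * w ^ (i : ℕ) ≠ 0)
    (A B Z : Fin r → ℚ) (w : ℚ) (hE : ∀ j, B j ^ 2 = A j ^ 3 - 23 * A j * Z j ^ 4)
    (h0 : ∀ j, ¬ (A j = 0 ∧ B j = 0 ∧ Z j = 0))
    (hw : D * w ^ d + ∑ i : Fin d, sec (fun s => (c ⟨i, s⟩ : ℚ)) A B Z * w ^ (i : ℕ) = 0) :
    ∀ j, A j = 0 ∧ B j = 0 := by
  apply general' (nu r m) (J := Unit) (fun _ => eqn D c) (fun _ => (fun _ => 2 * m * d, d))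
    (fun _ => eqn_hom D c) _ A B Z hE h0 ![1, w]
  · intro h
    have := congrFun h 0
    exact one_ne_zero this
  · intro _
    rw [eqn_eval]
    rw [← hw]
    change D * w ^ d + ∑ i : Fin d, sec (fun s => (c ⟨i, s⟩ : ℚ)) A B Z *
        (w ^ (i : ℕ) * 1 ^ (d - (i : ℕ))) = _
    simp only [one_pow, mul_one]
  · intro p hp e he ζ hζ
    have hpF : Fact p.Prime := ⟨hp.1⟩
    have h1 := hζ ()
    rw [eqn_corner] at h1
    have hDp : (D : ZMod p) ≠ 0 := fun h => hD p hp ((ZMod.intCast_zmod_eq_zero_iff_dvd _ p).1 h)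
    by_cases hu : ζ 0 = 0
    · have h2 : ζ 1 = 0 := by
        rw [hu] at h1
        have h3 : ∑ i : Fin d, (c ⟨i, idx e⟩ : ZMod p) * (ζ 1 ^ (i : ℕ) * 0 ^ (d - (i : ℕ))) = 0 := by
          apply Finset.sum_eq_zero
          intro i _
          have : d - (i : ℕ) ≠ 0 := by have := i.2; omega
          rw [zero_pow this, mul_zero, mul_zero]
        rw [h3, add_zero] at h1
        exact pow_eq_zero_iff hd.ne' |>.1 ((mul_eq_zero.1 h1).resolve_left hDp)
      funext j
      fin_cases j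
      · exact hu
      · exact h2
    · exfalso
      apply hc e he p hp (ζ 1 / ζ 0)
      have h4 : ζ 0 ^ d * (D * (ζ 1 / ζ 0) ^ d + ∑ i : Fin d, (c ⟨i, idx e⟩ : ZMod p) * (ζ 1 / ζ 0) ^ (i : ℕ)) =
          D * ζ 1 ^ d + ∑ i : Fin d, (c ⟨i, idx e⟩ : ZMod p) * (ζ 1 ^ (i : ℕ) * ζ 0 ^ (d - (i : ℕ))) := by
        rw [mul_add, Finset.mul_sum]
        congr 1
        · rw [div_pow]; field_simp
        · apply Finset.sum_congr rfl
          intro i _
          have hi : ζ 0 ^ d = ζ 0 ^ (i : ℕ) * ζ 0 ^ (d - (i : ℕ)) := by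
            rw [← pow_add]; congr 1; have := i.2; omega
          rw [hi, div_pow]
          field_simp
      rw [h1] at h4
      exact (mul_eq_zero.1 h4).resolve_left (pow_ne_zero _ hu)

end Pool.Agent.H964R2.Kob
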