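import Pool.Agent.H964R2.Kob.Poly

/-!
# Covers of `E^r` of degree `4k` with exactly one rational point are dense in the real topology
-/

namespace Pool.Agent.H964R2.Kob

open Polynomial Pool.Agent.H964R2.Lang

theorem exists_den {ι : Type*} [Fintype ι] (q : ι → ℚ)
    (h : ∀ s, ∃ n D : ℤ, NI D ∧ q s = n / D) : ∃ D : ℤ, NI D ∧ ∀ s, ∃ n : ℤ, q s = n / D := by
  classical
  choose n D hD hq using h
  refine ⟨∏ s, D s, NI_prod _ _ fun s _ => hD s, fun s => ⟨n s * ∏ t ∈ Finset.univ.erase s, D t, ?_⟩⟩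
  have h1 := Finset.mul_prod_erase Finset.univ D (Finset.mem_univ s)
  have h2 : (D s : ℚ) ≠ 0 := by exact_mod_cast (hD s).ne_zero
  have h3 : (∏ t ∈ Finset.univ.erase s, D t) ≠ 0 := (NI_prod _ _ fun t _ => hD t).ne_zero
  have h4 : ((∏ t ∈ Finset.univ.erase s, D t : ℤ) : ℚ) ≠ 0 := by exact_mod_cast h3
  rw [← h1, hq s, Int.cast_mul, Int.cast_mul]
  field_simp

theorem approx_floor (x : ℝ) (N : ℕ) : |((⌊x * 13 ^ N⌋ : ℤ) : ℝ) / 13 ^ N - x| ≤ 1 / 13 ^ N := by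
  have h : (0 : ℝ) < 13 ^ N := by positivity
  have h1 := Int.floor_le (x * 13 ^ N)
  have h2 := Int.lt_floor_add_one (x * 13 ^ N)
  have h3 : ((⌊x * 13 ^ N⌋ : ℤ) : ℝ) / 13 ^ N - x = ((⌊x * 13 ^ N⌋ : ℤ) - x * 13 ^ N) / 13 ^ N := by
    field_simp
  rw [h3, abs_div, abs_of_pos h]
  apply div_le_div_of_nonneg_right _ h.le
  rw [abs_le]
  constructor <;> linarith

theorem approx_four (x : ℝ) (N : ℕ) :
    |(((4 * ⌊x * 13 ^ N / 4⌋ + 2 : ℤ)) : ℝ) / 13 ^ N - x| ≤ 2 / 13 ^ N := by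
  have h : (0 : ℝ) < 13 ^ N := by positivity
  have h1 := Int.floor_le (x * 13 ^ N / 4)
  have h2 := Int.lt_floor_add_one (x * 13 ^ N / 4)
  have h3 : (((4 * ⌊x * 13 ^ N / 4⌋ + 2 : ℤ)) : ℝ) / 13 ^ N - x =
      (((4 * ⌊x * 13 ^ N / 4⌋ + 2 : ℤ) : ℝ) - x * 13 ^ N) / 13 ^ N := by
    field_simp
  rw [h3, abs_div, abs_of_pos h]
  apply div_le_div_of_nonneg_right _ h.le
  push_cast
  rw [abs_le]
  constructor <;> linarith

/-- an Eisenstein type argument -/
theorem no_int_root {n : ℕ} (hn : 2 ≤ n) (b : Fin n → ℤ) (hb : ∀ i, 2 ∣ b i)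
    (hb0 : ¬ 4 ∣ b ⟨0, by omega⟩) (z : ℤ) : z ^ n + ∑ i : Fin n, b i * z ^ (i : ℕ) ≠ 0 := by
  intro h
  have h1 : (2 : ℤ) ∣ z := by
    have h2 : (2 : ℤ) ∣ ∑ i : Fin n, b i * z ^ (i : ℕ) :=
      Finset.dvd_sum fun i _ => (hb i).mul_right _
    have h3 : (2 : ℤ) ∣ z ^ n := by
      have : z ^ n = -∑ i : Fin n, b i * z ^ (i : ℕ) := by linarith
      rw [this]
      exact (dvd_neg).2 h2
    exact Int.prime_two.dvd_of_dvd_pow h3
  have h4 : (4 : ℤ) ∣ z ^ n := by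
    have : (2 : ℤ) ^ 2 ∣ z ^ 2 := pow_dvd_pow_of_dvd h1 2
    exact (by norm_num : (4 : ℤ) = 2 ^ 2) ▸ this.trans (pow_dvd_pow z hn)
  obtain ⟨n', rfl⟩ : ∃ n', n = n' + 1 := ⟨n - 1, by omega⟩
  rw [Fin.sum_univ_succ] at h
  have h5 : (4 : ℤ) ∣ ∑ i : Fin n', b i.succ * z ^ ((i.succ : Fin (n' + 1)) : ℕ) := by
    apply Finset.dvd_sum
    intro i _
    obtain ⟨u, hu⟩ := hb i.succ
    obtain ⟨v, hv⟩ := h1
    rw [Fin.val_succ, pow_succ, hu]
    refine ⟨u * z ^ (i : ℕ) * v, ?_⟩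
    rw [hv]; ring
  apply hb0
  have h6 : b ⟨0, by omega⟩ = -(z ^ (n' + 1)) -
      ∑ i : Fin n', b i.succ * z ^ ((i.succ : Fin (n' + 1)) : ℕ) := by
    have : b 0 * z ^ ((0 : Fin (n' + 1)) : ℕ) = b ⟨0, by omega⟩ := by
      rw [Fin.val_zero, pow_zero, mul_one]; rfl
    rw [this] at h
    linarith
  rw [h6]
  exact dvd_sub ((dvd_neg).2 h4) h5

theorem central {d : ℕ} (hd : 3 ≤ d) (N : ℕ) (g : Fin d → ℚ) (a : Fin d → ℤ)
    (h0 : g ⟨0, by omega⟩ = 0) (hg : ∀ i : Fin d, (i : ℕ) ≠ 0 → g i = a i / 13 ^ N)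
    (ha : ∀ i, ∃ b : ℤ, a i = 4 * b + 2) (w : ℚ)
    (hw : w ^ d + ∑ i : Fin d, g i * w ^ (i : ℕ) = 0) : w = 0 := by
  by_contra hw0
  obtain ⟨n, rfl⟩ : ∃ n, d = n + 1 := ⟨d - 1, by omega⟩
  rw [Fin.sum_univ_succ] at hw
  have h1 : g 0 = 0 := h0
  rw [h1, zero_mul, zero_add] at hw
  have h13 : (13 : ℚ) ^ N ≠ 0 := by positivity
  set W : ℚ := 13 ^ N * w with hW
  set b : Fin n → ℤ := fun i => a i.succ * 13 ^ (N * (n - 1 - (i : ℕ))) with hb
  have h2 : W ^ n + ∑ i : Fin n, (b i : ℚ) * W ^ (i : ℕ) = 0 := by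
    have h3 : w * (W ^ n + ∑ i : Fin n, (b i : ℚ) * W ^ (i : ℕ)) =
        (13 ^ N) ^ n * (w ^ (n + 1) + ∑ i : Fin n, g i.succ * w ^ ((i.succ : Fin (n + 1)) : ℕ)) := by
      rw [mul_add, mul_add, Finset.mul_sum, Finset.mul_sum]
      congr 1
      · rw [hW, mul_pow, pow_succ]; ring
      · apply Finset.sum_congr rfl
        intro i _
        rw [hg i.succ (by rw [Fin.val_succ]; omega), hb, hW, Fin.val_succ, mul_pow]
        push_cast
        obtain ⟨j, hj⟩ : ∃ j, n = j + 1 + (i : ℕ) := ⟨n - 1 - i, by have := i.2; omega⟩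
        have hj2 : n - 1 - (i : ℕ) = j := by omega
        have hj3 : ((13 : ℚ) ^ N) ^ n = (13 ^ N) ^ j * 13 ^ N * (13 ^ N) ^ (i : ℕ) := by
          rw [← pow_succ, ← pow_add]
          congr 1
        rw [hj2, hj3, pow_mul]
        field_simp
        ring
    rw [hw, mul_zero] at h3
    exact (mul_eq_zero.1 h3).resolve_left hw0
  have h4 : IsIntegral ℤ W := by
    refine ⟨X ^ n + ∑ i : Fin n, C (b i) * X ^ (i : ℕ), monic_X_pow_add (degree_sum_fin_lt _), ?_⟩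
    rw [eval₂_add, eval₂_finsetSum]
    simp only [eval₂_mul, eval₂_pow, eval₂_X, eval₂_C]
    exact h2
  obtain ⟨z, hz⟩ := IsIntegrallyClosed.isIntegral_iff.1 h4
  have hz' : (z : ℚ) = W := hz
  refine no_int_root (n := n) (by omega) b ?_ ?_ z ?_
  · intro i
    obtain ⟨u, hu⟩ := ha i.succ
    refine ⟨(2 * u + 1) * 13 ^ (N * (n - 1 - (i : ℕ))), ?_⟩
    rw [hb]
    change a i.succ * _ = _
    rw [hu]; ring
  · intro h5
    obtain ⟨u, hu⟩ := ha (Fin.succ ⟨0, by omega⟩)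
    rw [hb] at h5
    change (4 : ℤ) ∣ a (Fin.succ ⟨0, by omega⟩) * 13 ^ (N * (n - 1 - 0)) at h5
    rw [hu] at h5
    have h6 : (2 : ℤ) ∣ (2 * u + 1) * 13 ^ (N * (n - 1 - 0)) := by
      obtain ⟨v, hv⟩ := h5
      exact ⟨v, by linarith⟩
    rcases Int.prime_two.dvd_or_dvd h6 with h7 | h7
    · omega
    · have := Int.prime_two.dvd_of_dvd_pow h7
      omega
  · rw [← hz'] at h2
    exact_mod_cast h2

theorem idx_inj {r n : ℕ} (hn : 0 < n) {e e' : Fin r → Bool} (h : (idx e : Fin r → Mon n) = idx e') :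
    e = e' := by
  funext j
  have h1 := congrFun h j
  simp only [idx, Sum.inl.injEq] at h1
  rcases he : e j with _ | _ <;> rcases he' : e' j with _ | _ <;> simp only [he, he'] at h1 ⊢
  · simp only [Bool.false_eq_true, if_false, if_true] at h1
    rw [Fin.ext_iff] at h1
    have : n = 0 := h1
    omega
  · simp only [Bool.false_eq_true, if_false, if_true] at h1
    rw [Fin.ext_iff] at h1
    have : 0 = n := h1
    omega

theorem sec_centre {r n : ℕ} (c : (Fin r → Mon n) → ℚ) (Z : Fin r → ℚ) :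
    sec c (fun _ => 0) (fun _ => 0) Z = c (idx fun _ => true) * ∏ j, Z j ^ (2 * n) := by
  classical
  have h : ∀ (s : Mon n) (j : Fin r), mon s 0 0 (Z j) =
      if s = idx (fun _ => true) j then Z j ^ (2 * n) else 0 := by
    intro s j
    rcases s with a | b
    · simp only [mon, idx, Sum.inl.injEq, if_true]
      by_cases h : a = 0
      · rw [if_pos h, h]; simp
      · rw [if_neg h, zero_pow, zero_mul]
        intro h1
        apply h
        rw [Fin.ext_iff]; exact h1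
    · simp [mon, idx]
  unfold sec
  rw [Finset.sum_eq_single (idx fun _ => true)]
  · congr 1
    apply Finset.prod_congr rfl
    intro j _
    rw [h, if_pos rfl]
  · intro s _ hs
    obtain ⟨i, hi⟩ := Function.ne_iff.1 hs
    rw [Finset.prod_eq_zero (Finset.mem_univ i), mul_zero]
    rw [h, if_neg hi]
  · intro h; exact absurd (Finset.mem_univ _) h

theorem cov_centre {r m d : ℕ} (c : Coef r m d → ℚ) (Z : Fin r → ℚ) (w : ℚ) :
    cov c (fun _ => 0) (fun _ => 0) Z ((∏ j, Z j ^ (2 * m)) * w) =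
      (∏ j, Z j ^ (2 * m)) ^ d * (w ^ d + ∑ i : Fin d, c ⟨i, idx fun _ => true⟩ * w ^ (i : ℕ)) := by
  unfold cov
  rw [mul_add, mul_pow, Finset.mul_sum]
  congr 1
  apply Finset.sum_congr rfl
  intro i _
  rw [sec_centre, mul_pow]
  have h1 : ∏ j, Z j ^ (2 * (m * (d - (i : ℕ)))) = (∏ j, Z j ^ (2 * m)) ^ (d - (i : ℕ)) := by
    rw [← Finset.prod_pow]
    apply Finset.prod_congr rfl
    intro j _
    rw [← pow_mul, mul_assoc]
  have h2 : (∏ j, Z j ^ (2 * m)) ^ d =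
      (∏ j, Z j ^ (2 * m)) ^ (d - (i : ℕ)) * (∏ j, Z j ^ (2 * m)) ^ (i : ℕ) := by
    rw [← pow_add]; congr 1; have := i.2; omega
  rw [h1, h2]; ring

/-- evaluation of a good polynomial -/
theorem good_eval {Q : ℤ[X]} {d : ℕ} (hQ : Good Q d) {R : Type*} [CommRing R] (w : R) :
    aeval w Q = Q.leadingCoeff * w ^ d + ∑ i : Fin d, (Q.coeff i : R) * w ^ (i : ℕ) := by
  rw [aeval_eq_sum_range, hQ.1, Finset.sum_range_succ, add_comm, Finset.sum_range]
  simp only [zsmul_eq_mul]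
  rw [leadingCoeff, hQ.1]

theorem main {r m d : ℕ} (hm : 0 < m) (hd : 3 ≤ d) (hG : ∀ v : Fin d → ℝ, v ∈ closure (G d))
    (c₀ : Coef r m d → ℝ) (h₀ : c₀ ⟨⟨0, by omega⟩, idx fun _ => true⟩ = 0) (ε : ℝ) (hε : 0 < ε) :
    ∃ c : Coef r m d → ℚ, (∀ s, |(c s : ℝ) - c₀ s| < ε) ∧
      ∀ (A B Z : Fin r → ℚ) (w : ℚ),
        ((∀ j, B j ^ 2 = A j ^ 3 - 23 * A j * Z j ^ 4 ∧ ¬ (A j = 0 ∧ B j = 0 ∧ Z j = 0)) ∧
          cov c A B Z w = 0) ↔ (∀ j, A j = 0 ∧ B j = 0 ∧ Z j ≠ 0) ∧ w = 0 := by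
  classical
  -- approximations at the corners
  have h1 : ∀ e : Fin r → Bool, ∃ Q : ℤ[X], Good Q d ∧
      ∀ i : Fin d, |(Q.coeff i : ℝ) / Q.leadingCoeff - c₀ ⟨i, idx e⟩| < ε := by
    intro e
    obtain ⟨v, ⟨Q, hQ, hv⟩, hdist⟩ := Metric.mem_closure_iff.1 (hG fun i => c₀ ⟨i, idx e⟩) ε hε
    refine ⟨Q, hQ, fun i => ?_⟩
    rw [← hv i, ← Real.dist_eq, dist_comm]
    exact (dist_pi_lt_iff hε).1 hdist i
  choose Q hQ hQε using h1
  obtain ⟨N, hN⟩ : ∃ N : ℕ, (2 : ℝ) / 13 ^ N < ε := by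
    obtain ⟨N, hN⟩ := pow_unbounded_of_one_lt (2 / ε) (by norm_num : (1 : ℝ) < 13)
    refine ⟨N, ?_⟩
    have : (0 : ℝ) < 13 ^ N := by positivity
    rw [div_lt_iff₀ hε] at hN
    rw [div_lt_iff₀ this]
    linarith
  have hN1 : (1 : ℝ) / 13 ^ N < ε := by
    have : (0 : ℝ) < 13 ^ N := by positivity
    refine lt_of_le_of_lt ?_ hN
    gcongr
    norm_num
  set tr : Fin r → Bool := fun _ => true with htr
  -- the coefficients
  set c : Coef r m d → ℚ := fun q =>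
    if q.2 = idx tr then
      (if (q.1 : ℕ) = 0 then 0 else ((4 * ⌊c₀ q * 13 ^ N / 4⌋ + 2 : ℤ) : ℚ) / 13 ^ N)
    else if h : ∃ e : Fin r → Bool, q.2 = idx e then
      ((Q h.choose).coeff q.1 : ℚ) / (Q h.choose).leadingCoeff
    else ((⌊c₀ q * 13 ^ N⌋ : ℤ) : ℚ) / 13 ^ N with hc
  have hpos : ∀ i : Fin d, 0 < m * (d - (i : ℕ)) := fun i => Nat.mul_pos hm (by have := i.2; omega)
  have hcorner : ∀ (i : Fin d) (e : Fin r → Bool), e ≠ tr →
      c ⟨i, idx e⟩ = ((Q e).coeff i : ℚ) / (Q e).leadingCoeff := by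
    intro i e he
    have h2 : (idx e : Fin r → Mon (m * (d - (i : ℕ)))) ≠ idx tr := fun h => he (idx_inj (hpos i) h)
    have h3 : ∃ e' : Fin r → Bool, (idx e : Fin r → Mon (m * (d - (i : ℕ)))) = idx e' := ⟨e, rfl⟩
    simp only [hc]
    rw [if_neg h2, dif_pos h3]
    have h4 : h3.choose = e := (idx_inj (hpos i) h3.choose_spec).symm
    rw [h4]
  have hcent0 : ∀ i : Fin d, (i : ℕ) = 0 → c ⟨i, idx tr⟩ = 0 := by
    intro i hi
    rw [hc]
    exact (if_pos rfl).trans (if_pos hi)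
  have hcent : ∀ i : Fin d, (i : ℕ) ≠ 0 →
      c ⟨i, idx tr⟩ = ((4 * ⌊c₀ ⟨i, idx tr⟩ * 13 ^ N / 4⌋ + 2 : ℤ) : ℚ) / 13 ^ N := by
    intro i hi
    rw [hc]
    exact (if_pos rfl).trans (if_neg hi)
  have h00 : 0 < d := by omega
  refine ⟨c, ?_, ?_⟩
  · rintro ⟨i, s⟩
    by_cases hs : s = idx tr
    · subst hs
      by_cases hi : (i : ℕ) = 0
      · have h5 : c₀ ⟨i, idx tr⟩ = 0 := by
          have hi' : i = (⟨0, h00⟩ : Fin d) := Fin.ext hi
          rw [hi']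
          exact h₀
        rw [hcent0 i hi, h5]
        simpa using hε
      · rw [hcent i hi]
        refine lt_of_le_of_lt ?_ hN
        have := approx_four (c₀ ⟨i, idx tr⟩) N
        push_cast at this ⊢
        exact this
    · by_cases hs2 : ∃ e : Fin r → Bool, s = idx e
      · obtain ⟨e, rfl⟩ := hs2
        rw [hcorner i e (fun h => hs (by rw [h]))]
        have := hQε e i
        push_cast
        exact this
      · simp only [hc]
        rw [if_neg hs, dif_neg hs2]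
        refine lt_of_le_of_lt ?_ hN1
        have := approx_floor (c₀ ⟨i, s⟩) N
        push_cast at this ⊢
        exact this
  · -- a common denominator
    have hden : ∀ s, ∃ n D : ℤ, NI D ∧ c s = n / D := by
      rintro ⟨i, s⟩
      by_cases hs : s = idx tr
      · subst hs
        by_cases hi : (i : ℕ) = 0
        · exact ⟨0, 1, NI_one, by rw [hcent0 i hi]; simp⟩
        · exact ⟨4 * ⌊c₀ ⟨i, idx tr⟩ * 13 ^ N / 4⌋ + 2, 13 ^ N, NI_thirteen.pow N, by
            rw [hcent i hi]; push_cast; rfl⟩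
      · by_cases hs2 : ∃ e : Fin r → Bool, s = idx e
        · obtain ⟨e, rfl⟩ := hs2
          exact ⟨_, _, (hQ e).2.1, hcorner i e (fun h => hs (by rw [h]))⟩
        · refine ⟨⌊c₀ ⟨i, s⟩ * 13 ^ N⌋, 13 ^ N, NI_thirteen.pow N, ?_⟩
          simp only [hc]
          rw [if_neg hs, dif_neg hs2]
          push_cast; rfl
    obtain ⟨D, hD, hn⟩ := exists_den c hden
    choose n hn using hn
    have hD0 : (D : ℚ) ≠ 0 := by exact_mod_cast hD.ne_zero
    have hcond : ∀ e : Fin r → Bool, (∃ i, e i = false) → ∀ p : ℕ, Inert p → ∀ w : ZMod p,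
        D * w ^ d + ∑ i : Fin d, (n ⟨i, idx e⟩ : ZMod p) * w ^ (i : ℕ) ≠ 0 := by
      intro e he p hp w hw
      have hpF : Fact p.Prime := ⟨hp.1⟩
      have he' : e ≠ tr := by
        rintro rfl
        obtain ⟨i, hi⟩ := he
        simp [htr] at hi
      have h5 : ∀ i : Fin d, n ⟨i, idx e⟩ * (Q e).leadingCoeff = D * (Q e).coeff i := by
        intro i
        have h6 := hn ⟨i, idx e⟩
        rw [hcorner i e he'] at h6
        have hl : ((Q e).leadingCoeff : ℚ) ≠ 0 := by exact_mod_cast (hQ e).2.1.ne_zero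
        rw [div_eq_div_iff hl hD0] at h6
        have h7 : (((Q e).coeff i * D : ℤ) : ℚ) = ((n ⟨i, idx e⟩ * (Q e).leadingCoeff : ℤ) : ℚ) := by
          push_cast; exact h6
        have h8 := Int.cast_injective h7
        linarith
      have h9 : ((Q e).leadingCoeff : ZMod p) *
          (D * w ^ d + ∑ i : Fin d, (n ⟨i, idx e⟩ : ZMod p) * w ^ (i : ℕ)) = D * aeval w (Q e) := by
        rw [good_eval (hQ e), mul_add, mul_add, Finset.mul_sum, Finset.mul_sum]
        congr 1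
        · ring
        · apply Finset.sum_congr rfl
          intro i _
          have h10 : ((n ⟨i, idx e⟩ : ℤ) : ZMod p) * (Q e).leadingCoeff = D * (Q e).coeff i := by
            exact_mod_cast congrArg (Int.cast : ℤ → ZMod p) (h5 i)
          rw [← mul_assoc, ← mul_assoc, ← h10]; ring
      rw [hw, mul_zero] at h9
      rcases mul_eq_zero.1 h9.symm with h10 | h10
      · exact hD.cast_ne hp h10
      · exact (hQ e).2.2 p hp w h10
    intro A B Z w
    constructor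
    · rintro ⟨hAB, hw⟩
      have h5 := cover D hD (by omega) n hcond A B Z w (fun j => (hAB j).1) (fun j => (hAB j).2) (by
        have h6 : D * cov c A B Z w = 0 := by rw [hw, mul_zero]
        rw [← h6]
        unfold cov
        rw [mul_add, Finset.mul_sum]
        congr 1
        apply Finset.sum_congr rfl
        intro i _
        rw [← mul_assoc]
        congr 1
        unfold sec
        rw [Finset.mul_sum]
        apply Finset.sum_congr rfl
        intro s _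
        change (n ⟨i, s⟩ : ℚ) * ∏ j, mon (s j) (A j) (B j) (Z j) =
          D * (c ⟨i, s⟩ * ∏ j, mon (s j) (A j) (B j) (Z j))
        rw [hn ⟨i, s⟩, ← mul_assoc]
        congr 1
        field_simp)
      have hA : A = fun _ => 0 := funext fun j => (h5 j).1
      have hB : B = fun _ => 0 := funext fun j => (h5 j).2
      have hZ : ∀ j, Z j ≠ 0 := fun j h => (hAB j).2 ⟨(h5 j).1, (h5 j).2, h⟩
      refine ⟨fun j => ⟨(h5 j).1, (h5 j).2, hZ j⟩, ?_⟩
      have hζ : (∏ j, Z j ^ (2 * m)) ≠ 0 := Finset.prod_ne_zero_iff.2 fun j _ => pow_ne_zero _ (hZ j)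
      subst hA hB
      obtain ⟨w', rfl⟩ : ∃ w', w = (∏ j, Z j ^ (2 * m)) * w' :=
        ⟨(∏ j, Z j ^ (2 * m))⁻¹ * w, by field_simp⟩
      rw [cov_centre] at hw
      have h6 := (mul_eq_zero.1 hw).resolve_left (pow_ne_zero d hζ)
      have h7 := central hd N (fun i => c ⟨i, idx tr⟩)
        (fun i => 4 * ⌊c₀ ⟨i, idx tr⟩ * 13 ^ N / 4⌋ + 2) (hcent0 _ rfl)
        (fun i hi => hcent i hi) (fun i => ⟨_, rfl⟩) w' h6
      rw [h7, mul_zero]
    · rintro ⟨h5, rfl⟩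
      have hA : A = fun _ => 0 := funext fun j => (h5 j).1
      have hB : B = fun _ => 0 := funext fun j => (h5 j).2.1
      have hZ : ∀ j, Z j ≠ 0 := fun j => (h5 j).2.2
      subst hA hB
      refine ⟨fun j => ⟨by norm_num, fun h => hZ j h.2.2⟩, ?_⟩
      have h6 := cov_centre c Z 0
      rw [mul_zero] at h6
      rw [h6, zero_pow (by omega), zero_add]
      have h7 : ∑ i : Fin d, c ⟨i, idx fun _ => true⟩ * (0 : ℚ) ^ (i : ℕ) = 0 := by
        apply Finset.sum_eq_zero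
        intro i _
        by_cases hi : (i : ℕ) = 0
        · have := hcent0 i hi
          rw [htr] at this
          rw [this, zero_mul]
        · rw [zero_pow hi, mul_zero]
      rw [h7, mul_zero]

end Pool.Agent.H964R2.Kob
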