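import Pool.Agent.H964R2.Kob.Eqn

/-!
# Density of the monic polynomials of degree `4k` without roots modulo the inert primes
-/

namespace Pool.Agent.H964R2.Kob

open Polynomial Pool.Agent.H964R2.Lang Filter Topology

theorem NI.mul {a b : ℤ} (ha : NI a) (hb : NI b) : NI (a * b) := by
  intro p hp h
  have hpp : Prime (p : ℤ) := Nat.prime_iff_prime_int.1 hp.1
  rcases hpp.dvd_or_dvd h with h | h
  · exact ha p hp h
  · exact hb p hp h

theorem NI.ne_zero {a : ℤ} (ha : NI a) : a ≠ 0 := by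
  rintro rfl
  exact ha 5 five_inert (dvd_zero _)

theorem NI_one : NI 1 := by
  intro p hp h
  exact hp.1.one_lt.ne' (Nat.dvd_one.1 (by exact_mod_cast h))

theorem NI.pow {a : ℤ} (ha : NI a) (n : ℕ) : NI (a ^ n) := by
  induction n with
  | zero => rw [pow_zero]; exact NI_one
  | succ n ih => rw [pow_succ]; exact ih.mul ha

theorem NI.neg {a : ℤ} (ha : NI a) : NI (-a) := fun p hp h => ha p hp ((dvd_neg).1 h)

theorem NI_two : NI 2 := by
  intro p hp h
  have h1 : p ∣ 2 := by exact_mod_cast h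
  have h2 := (Nat.prime_dvd_prime_iff_eq hp.1 Nat.prime_two).1 h1
  apply hp.2.2
  subst h2
  decide

theorem NI_thirteen : NI 13 := by
  intro p hp h
  have h1 : p ∣ 13 := by exact_mod_cast h
  have h2 := (Nat.prime_dvd_prime_iff_eq hp.1 (by norm_num : Nat.Prime 13)).1 h1
  apply hp.2.2
  subst h2
  decide

theorem NI_prod {ι : Type*} (s : Finset ι) (f : ι → ℤ) (h : ∀ i ∈ s, NI (f i)) :
    NI (∏ i ∈ s, f i) := by
  classical
  induction s using Finset.induction_on with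
  | empty => rw [Finset.prod_empty]; exact NI_one
  | insert a s ha ih =>
    rw [Finset.prod_insert ha]
    exact (h a (Finset.mem_insert_self a s)).mul (ih fun i hi => h i (Finset.mem_insert_of_mem hi))

theorem NI.cast_ne {a : ℤ} (ha : NI a) {p : ℕ} (hp : Inert p) : (a : ZMod p) ≠ 0 :=
  fun h => ha p hp ((ZMod.intCast_zmod_eq_zero_iff_dvd _ p).1 h)

/-- `a² - 17` has no inert prime factor -/
theorem NI_sq_sub (a : ℤ) : NI (a ^ 2 - 17) := by
  intro p hp h
  apply hp.2.2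
  refine ⟨(a : ZMod p), ?_⟩
  have h1 := (ZMod.intCast_zmod_eq_zero_iff_dvd _ p).2 h
  push_cast at h1
  linear_combination -h1

/-- `Q` has degree `d`, leading coefficient prime to the inert primes and no root modulo the inert
primes -/
def Good (Q : ℤ[X]) (d : ℕ) : Prop :=
  Q.natDegree = d ∧ NI Q.leadingCoeff ∧ ∀ p : ℕ, Inert p → ∀ w : ZMod p, aeval w Q ≠ 0

theorem Good.mul {Q R : ℤ[X]} {a b : ℕ} (hQ : Good Q a) (hR : Good R b) : Good (Q * R) (a + b) := by
  obtain ⟨h1, h2, h3⟩ := hQ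
  obtain ⟨g1, g2, g3⟩ := hR
  have hQ0 : Q ≠ 0 := by
    rintro rfl; exact h2.ne_zero (by simp)
  have hR0 : R ≠ 0 := by
    rintro rfl; exact g2.ne_zero (by simp)
  refine ⟨by rw [natDegree_mul hQ0 hR0, h1, g1], by rw [leadingCoeff_mul]; exact h2.mul g2, ?_⟩
  intro p hp w
  have : Fact p.Prime := ⟨hp.1⟩
  rw [map_mul]
  exact mul_ne_zero (h3 p hp w) (g3 p hp w)

/-- the monic real polynomial with lower coefficients `v` -/
noncomputable def P {d : ℕ} (v : Fin d → ℝ) : ℝ[X] := X ^ d + ∑ i : Fin d, C (v i) * X ^ (i : ℕ)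

theorem coeff_P {d : ℕ} (v : Fin d → ℝ) (n : ℕ) :
    (P v).coeff n = if h : n < d then v ⟨n, h⟩ else if n = d then 1 else 0 := by
  unfold P
  rw [coeff_add, coeff_X_pow, finsetSum_coeff]
  simp only [coeff_C_mul, coeff_X_pow]
  by_cases h : n < d
  · rw [dif_pos h, if_neg h.ne, Finset.sum_eq_single ⟨n, h⟩]
    · simp
    · intro i _ hi
      rw [if_neg, mul_zero]
      intro h2
      exact hi (Fin.ext h2.symm)
    · intro h2; exact absurd (Finset.mem_univ _) h2
  · rw [dif_neg h, Finset.sum_eq_zero, add_zero]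
    intro i _
    rw [if_neg, mul_zero]
    intro h2
    exact h (h2 ▸ i.2)

theorem P_monic {d : ℕ} (v : Fin d → ℝ) : IsMonicOfDegree (P v) d := by
  rw [isMonicOfDegree_iff]
  refine ⟨?_, ?_⟩
  · rw [natDegree_le_iff_coeff_eq_zero]
    intro n hn
    rw [coeff_P, dif_neg (by omega), if_neg (by omega)]
  · rw [coeff_P, dif_neg (lt_irrefl _), if_pos rfl]

theorem P_coeff {d : ℕ} {f : ℝ[X]} (hf : IsMonicOfDegree f d) : P (fun i : Fin d => f.coeff i) = f := by
  ext n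
  rw [coeff_P]
  rcases lt_trichotomy n d with h | h | h
  · rw [dif_pos h]
  · rw [dif_neg (by omega), if_pos h, h]
    exact ((isMonicOfDegree_iff _ _).1 hf).2.symm
  · rw [dif_neg (by omega), if_neg (by omega)]
    exact (coeff_eq_zero_of_natDegree_lt (by rw [hf.natDegree_eq]; exact h)).symm

/-- the vectors of lower coefficients of the polynomials `Q / lc(Q)`, `Q` good -/
def G (d : ℕ) : Set (Fin d → ℝ) :=
  {v | ∃ Q : ℤ[X], Good Q d ∧ ∀ i : Fin d, v i = Q.coeff i / Q.leadingCoeff}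

theorem G_poly {d : ℕ} {v : Fin d → ℝ} {Q : ℤ[X]} (hQ : Good Q d)
    (h : ∀ i : Fin d, v i = Q.coeff i / Q.leadingCoeff) :
    C (Q.leadingCoeff : ℝ) * P v = Q.map (Int.castRingHom ℝ) := by
  have h0 : (Q.leadingCoeff : ℝ) ≠ 0 := by exact_mod_cast hQ.2.1.ne_zero
  ext n
  rw [coeff_C_mul, coeff_P, coeff_map]
  rcases lt_trichotomy n d with hn | hn | hn
  · rw [dif_pos hn, h ⟨n, hn⟩]
    simp only [eq_intCast]
    field_simp
  · rw [dif_neg (by omega), if_pos hn, mul_one]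
    simp only [eq_intCast]
    rw [leadingCoeff, hQ.1, hn]
  · rw [dif_neg (by omega), if_neg (by omega), mul_zero, coeff_eq_zero_of_natDegree_lt (by rw [hQ.1]; exact hn)]
    simp

/-- multiplication of monic polynomials in terms of the lower coefficients -/
noncomputable def mulv {a b : ℕ} (v : Fin a → ℝ) (w : Fin b → ℝ) : Fin (a + b) → ℝ :=
  fun i => (P v * P w).coeff i

theorem mulv_G {a b : ℕ} {v : Fin a → ℝ} {w : Fin b → ℝ} (hv : v ∈ G a) (hw : w ∈ G b) :
    mulv v w ∈ G (a + b) := by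
  obtain ⟨Q, hQ, h1⟩ := hv
  obtain ⟨R, hR, h2⟩ := hw
  refine ⟨Q * R, hQ.mul hR, ?_⟩
  intro i
  have e1 := G_poly hQ h1
  have e2 := G_poly hR h2
  have hq : (Q.leadingCoeff : ℝ) ≠ 0 := by exact_mod_cast hQ.2.1.ne_zero
  have hr : (R.leadingCoeff : ℝ) ≠ 0 := by exact_mod_cast hR.2.1.ne_zero
  have e3 : C ((Q.leadingCoeff : ℝ) * R.leadingCoeff) * (P v * P w) =
      (Q * R).map (Int.castRingHom ℝ) := by
    rw [Polynomial.map_mul, ← e1, ← e2, C_mul]; ring
  have e4 := congrArg (fun f => f.coeff (i : ℕ)) e3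
  simp only [coeff_C_mul, coeff_map, eq_intCast] at e4
  change (P v * P w).coeff i = _
  rw [leadingCoeff_mul]
  push_cast
  rw [← e4]
  field_simp

theorem continuous_coeff_P {d n : ℕ} : Continuous fun v : Fin d → ℝ => (P v).coeff n := by
  simp only [coeff_P]
  by_cases h : n < d
  · simp only [dif_pos h]
    exact continuous_apply _
  · simp only [dif_neg h]
    exact continuous_const

theorem continuous_mulv {a b : ℕ} :
    Continuous (Function.uncurry (mulv : (Fin a → ℝ) → (Fin b → ℝ) → _)) := by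
  refine continuous_pi fun i => ?_
  simp only [Function.uncurry_def, mulv, coeff_mul]
  refine continuous_finsetSum _ fun x _ => ?_
  exact (continuous_coeff_P.comp continuous_fst).mul (continuous_coeff_P.comp continuous_snd)

theorem mulv_closure {a b : ℕ} {v : Fin a → ℝ} {w : Fin b → ℝ} (hv : v ∈ closure (G a))
    (hw : w ∈ closure (G b)) : mulv v w ∈ closure (G (a + b)) :=
  map_mem_closure₂ continuous_mulv hv hw fun _ h1 _ h2 => mulv_G h1 h2

/-! ### quartics -/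

/-- lower coefficients of `((X - c)(X - e) + δ)² - 17 b² (X - c)²` -/
def Phi (c e b δ : ℝ) : Fin 4 → ℝ :=
  ![(c * e + δ) ^ 2 - 17 * b ^ 2 * c ^ 2, -2 * (c + e) * (c * e + δ) + 34 * b ^ 2 * c,
    (c + e) ^ 2 + 2 * (c * e + δ) - 17 * b ^ 2, -2 * (c + e)]

/-- the general quartic -/
noncomputable def qp (a₄ a₃ a₂ a₁ a₀ : ℤ) : ℤ[X] :=
  C a₄ * X ^ 4 + C a₃ * X ^ 3 + C a₂ * X ^ 2 + C a₁ * X + C a₀

theorem qp_coeff_zero (a₄ a₃ a₂ a₁ a₀ : ℤ) : (qp a₄ a₃ a₂ a₁ a₀).coeff 0 = a₀ := by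
  unfold qp
  simp only [coeff_add, coeff_C_mul, coeff_X_pow, coeff_X, coeff_C]
  simp

theorem qp_coeff_one (a₄ a₃ a₂ a₁ a₀ : ℤ) : (qp a₄ a₃ a₂ a₁ a₀).coeff 1 = a₁ := by
  unfold qp
  simp only [coeff_add, coeff_C_mul, coeff_X_pow, coeff_X, coeff_C]
  simp

theorem qp_coeff_two (a₄ a₃ a₂ a₁ a₀ : ℤ) : (qp a₄ a₃ a₂ a₁ a₀).coeff 2 = a₂ := by
  unfold qp
  simp only [coeff_add, coeff_C_mul, coeff_X_pow, coeff_X, coeff_C]
  simp

theorem qp_coeff_three (a₄ a₃ a₂ a₁ a₀ : ℤ) : (qp a₄ a₃ a₂ a₁ a₀).coeff 3 = a₃ := by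
  unfold qp
  simp only [coeff_add, coeff_C_mul, coeff_X_pow, coeff_X, coeff_C]
  simp

theorem qp_coeff_four (a₄ a₃ a₂ a₁ a₀ : ℤ) : (qp a₄ a₃ a₂ a₁ a₀).coeff 4 = a₄ := by
  unfold qp
  simp only [coeff_add, coeff_C_mul, coeff_X_pow, coeff_X, coeff_C]
  simp

theorem qp_natDegree (a₄ a₃ a₂ a₁ a₀ : ℤ) (h : a₄ ≠ 0) : (qp a₄ a₃ a₂ a₁ a₀).natDegree = 4 := by
  unfold qp
  compute_degree!

theorem qp_aeval {R : Type*} [CommRing R] (a₄ a₃ a₂ a₁ a₀ : ℤ) (w : R) :
    aeval w (qp a₄ a₃ a₂ a₁ a₀) = a₄ * w ^ 4 + a₃ * w ^ 3 + a₂ * w ^ 2 + a₁ * w + a₀ := by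
  unfold qp
  simp only [map_add, map_mul, map_pow, aeval_C, aeval_X]
  rfl

noncomputable def quartic (M c e b δ : ℤ) : ℤ[X] :=
  qp (M ^ 4) (-2 * M ^ 3 * (c + e))
    (M ^ 2 * (c + e) ^ 2 + 2 * M ^ 2 * (c * e + M * δ) - 17 * b ^ 2 * M ^ 2)
    (-2 * M * (c + e) * (c * e + M * δ) + 34 * b ^ 2 * M * c)
    ((c * e + M * δ) ^ 2 - 17 * b ^ 2 * c ^ 2)

theorem quartic_good {M c e b δ : ℤ} (hM : NI M) (hb : NI b) (hδ : NI δ) :
    Good (quartic M c e b δ) 4 := by
  have hdeg : (quartic M c e b δ).natDegree = 4 := qp_natDegree _ _ _ _ _ (pow_ne_zero _ hM.ne_zero)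
  refine ⟨hdeg, ?_, ?_⟩
  · rw [leadingCoeff, hdeg, quartic, qp_coeff_four]
    exact hM.pow 4
  · intro p hp w
    have : Fact p.Prime := ⟨hp.1⟩
    intro h
    have h1 : (((M : ZMod p) * w - c) * (M * w - e) + M * δ) ^ 2 =
        17 * (b * (M * w - c)) ^ 2 := by
      rw [quartic, qp_aeval] at h
      push_cast at h
      linear_combination h
    have h2 : (b : ZMod p) * (M * w - c) = 0 := by
      by_contra hne
      apply hp.2.2
      refine ⟨(((M : ZMod p) * w - c) * (M * w - e) + M * δ) / (b * (M * w - c)), ?_⟩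
      rw [← sq, div_pow, h1, mul_div_cancel_right₀ _ (pow_ne_zero 2 hne)]
    have h3 : (M : ZMod p) * w - c = 0 := (mul_eq_zero.1 h2).resolve_left (hb.cast_ne hp)
    rw [h3] at h1
    have h4 : ((M : ZMod p) * δ) ^ 2 = 0 := by linear_combination h1
    exact mul_ne_zero (hM.cast_ne hp) (hδ.cast_ne hp) (pow_eq_zero_iff two_ne_zero |>.1 h4)

theorem Phi_mem {M c e b δ : ℤ} (hM : NI M) (hb : NI b) (hδ : NI δ) :
    Phi (c / M) (e / M) (b / M) (δ / M) ∈ G 4 := by
  have hg := quartic_good (c := c) (e := e) hM hb hδ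
  refine ⟨quartic M c e b δ, hg, ?_⟩
  have hM0 : (M : ℝ) ≠ 0 := by exact_mod_cast hM.ne_zero
  have hlc : (quartic M c e b δ).leadingCoeff = M ^ 4 := by
    rw [leadingCoeff, hg.1, quartic, qp_coeff_four]
  intro i
  rw [hlc]
  fin_cases i
  · have : (quartic M c e b δ).coeff 0 = (c * e + M * δ) ^ 2 - 17 * b ^ 2 * c ^ 2 := by
      rw [quartic, qp_coeff_zero]
    change (c / M * (e / M) + δ / M) ^ 2 - 17 * (b / M) ^ 2 * (c / M) ^ 2 =
      (((quartic M c e b δ).coeff 0 : ℤ) : ℝ) / ((M ^ 4 : ℤ) : ℝ)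
    rw [this]
    push_cast
    field_simp
  · have : (quartic M c e b δ).coeff 1 = -2 * M * (c + e) * (c * e + M * δ) + 34 * b ^ 2 * M * c := by
      rw [quartic, qp_coeff_one]
    change -2 * ((c : ℝ) / M + e / M) * (c / M * (e / M) + δ / M) + 34 * (b / M) ^ 2 * (c / M) =
      (((quartic M c e b δ).coeff 1 : ℤ) : ℝ) / ((M ^ 4 : ℤ) : ℝ)
    rw [this]
    push_cast
    field_simp
  · have : (quartic M c e b δ).coeff 2 =
        M ^ 2 * (c + e) ^ 2 + 2 * M ^ 2 * (c * e + M * δ) - 17 * b ^ 2 * M ^ 2 := by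
      rw [quartic, qp_coeff_two]
    change ((c : ℝ) / M + e / M) ^ 2 + 2 * (c / M * (e / M) + δ / M) - 17 * (b / M) ^ 2 =
      (((quartic M c e b δ).coeff 2 : ℤ) : ℝ) / ((M ^ 4 : ℤ) : ℝ)
    rw [this]
    push_cast
    field_simp
  · have : (quartic M c e b δ).coeff 3 = -2 * M ^ 3 * (c + e) := by
      rw [quartic, qp_coeff_three]
    change -2 * ((c : ℝ) / M + e / M) =
      (((quartic M c e b δ).coeff 3 : ℤ) : ℝ) / ((M ^ 4 : ℤ) : ℝ)
    rw [this]
    push_cast
    field_simp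

theorem tendsto_floor (x : ℝ) (b : ℝ) (hb : 1 < b) :
    Tendsto (fun i : ℕ => ((⌊x * b ^ i⌋ : ℤ) : ℝ) / b ^ i) atTop (𝓝 x) := by
  have h1 : Tendsto (fun i : ℕ => (1 / b) ^ i) atTop (𝓝 0) :=
    tendsto_pow_atTop_nhds_zero_of_lt_one (by positivity) (by rw [div_lt_one (by linarith)]; exact hb)
  have h2 : Tendsto (fun i : ℕ => x - (1 / b) ^ i) atTop (𝓝 (x - 0)) := tendsto_const_nhds.sub h1
  rw [sub_zero] at h2
  refine tendsto_of_tendsto_of_tendsto_of_le_of_le h2 tendsto_const_nhds ?_ ?_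
  · intro i
    have hbi : (0 : ℝ) < b ^ i := by positivity
    have := Int.lt_floor_add_one (x * b ^ i)
    change x - (1 / b) ^ i ≤ _
    rw [le_div_iff₀ hbi, one_div, inv_pow, sub_mul, inv_mul_cancel₀ hbi.ne']
    linarith
  · intro i
    have hbi : (0 : ℝ) < b ^ i := by positivity
    change _ ≤ x
    rw [div_le_iff₀ hbi]
    exact Int.floor_le _

theorem tendsto_NI (x : ℝ) : ∃ s : ℕ → ℤ, (∀ i, NI (s i)) ∧
    Tendsto (fun i : ℕ => (s i : ℝ) / 4 ^ i) atTop (𝓝 x) := by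
  have main : ∀ y : ℝ, 0 ≤ y → Tendsto (fun i : ℕ => (((⌊√y * 2 ^ i⌋ ^ 2 - 17 : ℤ)) : ℝ) / 4 ^ i)
      atTop (𝓝 y) := by
    intro y hy
    have h1 := (tendsto_floor (√y) 2 (by norm_num)).pow 2
    rw [Real.sq_sqrt hy] at h1
    have h2 : Tendsto (fun i : ℕ => (17 : ℝ) * (1 / 4) ^ i) atTop (𝓝 (17 * 0)) :=
      (tendsto_pow_atTop_nhds_zero_of_lt_one (by norm_num) (by norm_num)).const_mul 17
    have h3 := h1.sub h2
    rw [mul_zero, sub_zero] at h3
    refine h3.congr fun i => ?_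
    have h4 : (4 : ℝ) ^ i = (2 ^ i) ^ 2 := by
      rw [← pow_mul, mul_comm, pow_mul]; norm_num
    have h5 : ((2 : ℝ) ^ i) ≠ 0 := by positivity
    push_cast
    rw [one_div, inv_pow, h4]
    field_simp
  rcases le_total 0 x with hx | hx
  · exact ⟨_, fun i => NI_sq_sub _, main x hx⟩
  · refine ⟨fun i => -(⌊√(-x) * 2 ^ i⌋ ^ 2 - 17), fun i => (NI_sq_sub _).neg, ?_⟩
    have h := (main (-x) (by linarith)).neg
    rw [neg_neg] at h
    refine h.congr fun i => ?_
    push_cast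
    ring

theorem Phi_closure (c e b δ : ℝ) : Phi c e b δ ∈ closure (G 4) := by
  obtain ⟨sb, hsb, tb⟩ := tendsto_NI b
  obtain ⟨sd, hsd, td⟩ := tendsto_NI δ
  have tc := tendsto_floor c 4 (by norm_num)
  have te := tendsto_floor e 4 (by norm_num)
  have hcont : Continuous fun q : (ℝ × ℝ) × (ℝ × ℝ) => Phi q.1.1 q.1.2 q.2.1 q.2.2 := by
    refine continuous_pi fun i => ?_
    fin_cases i <;> simp only [Phi] <;> simp <;> fun_prop
  have ht := (hcont.tendsto ((c, e), (b, δ))).comp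
    ((tc.prodMk_nhds te).prodMk_nhds (tb.prodMk_nhds td))
  refine mem_closure_of_tendsto ht (Eventually.of_forall fun i => ?_)
  have h4 : NI (4 ^ i) := by
    have : (4 : ℤ) = 2 ^ 2 := by norm_num
    rw [this]
    exact (NI_two.pow 2).pow i
  have := Phi_mem (M := 4 ^ i) (c := ⌊c * 4 ^ i⌋) (e := ⌊e * 4 ^ i⌋) h4 (hsb i) (hsd i)
  push_cast at this
  exact this

/-- lower coefficients of `(X² + s X + t) (X² + s' X + t')` -/
def Psi (s t s' t' : ℝ) : Fin 4 → ℝ :=
  ![t * t', s * t' + s' * t, t + t' + s * s', s + s']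

theorem Psi_closure_of_ne {s t s' t' : ℝ} (h : s' ≠ s) : Psi s t s' t' ∈ closure (G 4) := by
  set c : ℝ := -(t' - t) / (s' - s) with hc
  set e : ℝ := -(s + s') / 2 - c with he
  set b : ℝ := (s' - s) / (2 * √17) with hb
  set δ : ℝ := c ^ 2 + (s + s') / 2 * c + (t + t') / 2 with hδ
  have h0 : s' - s ≠ 0 := sub_ne_zero.2 h
  have h17 : √(17 : ℝ) ^ 2 = 17 := Real.sq_sqrt (by norm_num)
  have hb2 : 17 * b ^ 2 = (s' - s) ^ 2 / 4 := by
    rw [hb, div_pow, mul_pow, h17]; ring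
  have hc2 : (s' - s) * c = -(t' - t) := by rw [hc]; field_simp
  have e1 : c * e + δ = (t + t') / 2 := by rw [hδ, he]; ring
  have e2 : c + e = -(s + s') / 2 := by rw [he]; ring
  have hb3 : 17 * b ^ 2 * c = -(s' - s) * (t' - t) / 4 := by
    rw [hb2]; linear_combination (s' - s) / 4 * hc2
  have hb4 : 17 * b ^ 2 * c ^ 2 = (t' - t) ^ 2 / 4 := by
    have : 17 * b ^ 2 * c ^ 2 = ((s' - s) * c) ^ 2 / 4 := by rw [hb2]; ring
    rw [this, hc2]; ring
  have key : Psi s t s' t' = Phi c e b δ := by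
    funext i
    fin_cases i
    · change t * t' = (c * e + δ) ^ 2 - 17 * b ^ 2 * c ^ 2
      rw [hb4, e1]; ring
    · change s * t' + s' * t = -2 * (c + e) * (c * e + δ) + 34 * b ^ 2 * c
      have : 34 * b ^ 2 * c = 2 * (17 * b ^ 2 * c) := by ring
      rw [this, hb3, e1, e2]; ring
    · change t + t' + s * s' = (c + e) ^ 2 + 2 * (c * e + δ) - 17 * b ^ 2
      rw [hb2, e1, e2]; ring
    · change s + s' = -2 * (c + e)
      rw [e2]; ring
  rw [key]
  exact Phi_closure c e b δ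

theorem Psi_closure (s t s' t' : ℝ) : Psi s t s' t' ∈ closure (G 4) := by
  have hcont : Continuous fun x : ℝ => Psi s t x t' := by
    refine continuous_pi fun i => ?_
    fin_cases i <;> simp only [Psi] <;> simp <;> fun_prop
  have hcl : IsClosed {x : ℝ | Psi s t x t' ∈ closure (G 4)} := isClosed_closure.preimage hcont
  have hd : Dense {x : ℝ | Psi s t x t' ∈ closure (G 4)} :=
    (dense_compl_singleton s).mono fun x hx => Psi_closure_of_ne hx
  have := hd.closure_eq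
  rw [hcl.closure_eq] at this
  have h2 := Set.mem_univ s'
  rw [← this] at h2
  exact h2

theorem closure_G4 (v : Fin 4 → ℝ) : v ∈ closure (G 4) := by
  obtain ⟨f₁, f₂, h1, h2, h3⟩ := (P_monic (d := 2 + 2) v).eq_isMonicOfDegree_two_mul_isMonicOfDegree
  obtain ⟨s, t, rfl⟩ := isMonicOfDegree_two_iff.1 h1
  obtain ⟨s', t', rfl⟩ := isMonicOfDegree_two_iff.1 h2
  have hv : v = Psi s t s' t' := by
    have e1 : (X ^ 2 + C s * X + C t) * (X ^ 2 + C s' * X + C t') =
        X ^ 4 + C (s + s') * X ^ 3 + C (t + t' + s * s') * X ^ 2 + C (s * t' + s' * t) * X +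
          C (t * t') := by
      simp only [C_add, C_mul]; ring
    rw [e1] at h3
    have h4 : ∀ n : ℕ, ∀ hn : n < 4, v ⟨n, hn⟩ = (X ^ 4 + C (s + s') * X ^ 3 + C (t + t' + s * s') * X ^ 2 +
        C (s * t' + s' * t) * X + C (t * t') : ℝ[X]).coeff n := by
      intro n hn
      rw [← h3, coeff_P, dif_pos (by omega)]
    simp only [coeff_add, coeff_C_mul, coeff_X_pow, coeff_X, coeff_C] at h4
    funext i
    fin_cases i
    · have := h4 0 (by norm_num)
      simp at this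
      simpa [Psi] using this
    · have := h4 1 (by norm_num)
      simp at this
      simpa [Psi] using this
    · have := h4 2 (by norm_num)
      simp at this
      simpa [Psi] using this
    · have := h4 3 (by norm_num)
      simp at this
      simpa [Psi] using this
  rw [hv]
  exact Psi_closure s t s' t'

theorem mem_closure_of_mul {a b : ℕ} {v : Fin (a + b) → ℝ} {f g : ℝ[X]} (hf : IsMonicOfDegree f a)
    (hg : IsMonicOfDegree g b) (h : P v = f * g) (ha : ∀ u : Fin a → ℝ, u ∈ closure (G a))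
    (hb : ∀ u : Fin b → ℝ, u ∈ closure (G b)) : v ∈ closure (G (a + b)) := by
  have h1 := mulv_closure (ha fun i => f.coeff i) (hb fun i => g.coeff i)
  have h2 : mulv (fun i : Fin a => f.coeff i) (fun i : Fin b => g.coeff i) = v := by
    funext i
    rw [mulv, P_coeff hf, P_coeff hg, ← h, coeff_P, dif_pos i.2]
  rwa [h2] at h1

theorem monic_cast {f : ℝ[X]} {a b : ℕ} (h : IsMonicOfDegree f a) (e : a = b) :
    IsMonicOfDegree f b := e ▸ h

theorem closure_G : ∀ (k : ℕ) (v : Fin (4 * k) → ℝ), v ∈ closure (G (4 * k)) := by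
  intro k
  induction k with
  | zero =>
    intro v
    apply subset_closure
    refine ⟨1, ⟨by simp, ?_, ?_⟩, fun i => i.elim0⟩
    · rw [leadingCoeff_one]; exact NI_one
    · intro p hp w
      have : Fact p.Prime := ⟨hp.1⟩
      rw [map_one]
      exact one_ne_zero
  | succ k ih =>
    intro v
    have key : ∀ v : Fin (4 + 4 * k) → ℝ, v ∈ closure (G (4 + 4 * k)) := by
      intro v
      have h0 : IsMonicOfDegree (P v) ((4 * k + 2) + 2) := monic_cast (P_monic v) (by ring)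
      obtain ⟨f₁, f₂, h1, h2, h3⟩ := h0.eq_isMonicOfDegree_two_mul_isMonicOfDegree
      obtain ⟨g₁, g₂, h4, h5, h6⟩ := h2.eq_isMonicOfDegree_two_mul_isMonicOfDegree
      have h7 : P v = (f₁ * g₁) * g₂ := by rw [h3, h6]; ring
      exact mem_closure_of_mul (h1.mul h4) h5 h7 closure_G4 ih
    have h : 4 * (k + 1) = 4 + 4 * k := by ring
    rw [← h] at key
    exact key v

end Pool.Agent.H964R2.Kob
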